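import Mathlib

/-! Counting tuples of integer vectors with dependent images. -/

set_option autoImplicit false
set_option linter.unusedSectionVars false

namespace Pool.Agent.W_52423f_h53

open Module

/-- The number of integer points of a rational subspace in a box. -/
theorem box_ncard {R : ℕ} (B : ℕ) (W : Submodule ℚ (Fin R → ℚ)) :
    {z : Fin R → ℤ | (∀ j, |z j| ≤ (B : ℤ)) ∧ (fun j => (z j : ℚ)) ∈ W}.ncard ≤
      (2 * B + 1) ^ finrank ℚ W := by
  classical
  let c : Fin R → Module.Dual ℚ W := fun j => (LinearMap.proj j : (Fin R → ℚ) →ₗ[ℚ] ℚ) ∘ₗ W.subtype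
  obtain ⟨b, hb, hsp, hli⟩ := exists_linearIndependent ℚ (Set.range c)
  have : Finite b := (Set.finite_range c).subset hb
  let _ : Fintype b := Fintype.ofFinite b
  have hcard : Fintype.card b ≤ finrank ℚ W := by
    have h1 := hli.fintype_card_le_finrank
    rwa [Subspace.dual_finrank_eq] at h1
  choose J hJ using fun f : b => hb f.2
  let Φ : (Fin R → ℤ) → (b → ℤ) := fun z f => z (J f)
  have hfin : ((Fintype.piFinset fun _ : b => Finset.Icc (-(B : ℤ)) B : Finset (b → ℤ)) :
      Set (b → ℤ)).ncard = (2 * B + 1) ^ Fintype.card b := by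
    rw [Set.ncard_coe_finset, Fintype.card_piFinset, Finset.prod_const, Int.card_Icc,
      Finset.card_univ]
    congr 1
    omega
  calc {z : Fin R → ℤ | (∀ j, |z j| ≤ (B : ℤ)) ∧ (fun j => (z j : ℚ)) ∈ W}.ncard
      ≤ ((Fintype.piFinset fun _ : b => Finset.Icc (-(B : ℤ)) B : Finset (b → ℤ)) :
      Set (b → ℤ)).ncard := by
        refine Set.ncard_le_ncard_of_injOn Φ ?_ ?_ (Finset.finite_toSet _)
        · rintro z ⟨hz, -⟩
          rw [Finset.mem_coe, Fintype.mem_piFinset]
          intro f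
          rw [Finset.mem_Icc, ← abs_le]
          exact hz _
        · rintro z ⟨-, hz⟩ z' ⟨-, hz'⟩ h
          have hd : (fun j => ((z j : ℚ) - (z' j : ℚ))) ∈ W := W.sub_mem hz hz'
          let d : W := ⟨_, hd⟩
          have h0 : ∀ f ∈ Submodule.span ℚ (Set.range c), f d = 0 := by
            intro f hf
            rw [← hsp] at hf
            refine Submodule.span_induction (p := fun f _ => f d = 0) ?_ ?_ ?_ ?_ hf
            · intro f hf
              have h1 : f = c (J ⟨f, hf⟩) := (hJ ⟨f, hf⟩).symm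
              have h2 : z (J ⟨f, hf⟩) = z' (J ⟨f, hf⟩) := congrFun h ⟨f, hf⟩
              rw [h1]
              show ((z (J ⟨f, hf⟩) : ℚ) - (z' (J ⟨f, hf⟩) : ℚ)) = 0
              rw [h2, sub_self]
            · rfl
            · intro f f' _ _ h1 h2
              rw [LinearMap.add_apply, h1, h2, add_zero]
            · intro a f _ h1
              rw [LinearMap.smul_apply, h1, smul_zero]
          funext j
          have h1 := h0 (c j) (Submodule.subset_span ⟨j, rfl⟩)
          have h2 : ((z j : ℚ) - (z' j : ℚ)) = 0 := h1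
          exact_mod_cast sub_eq_zero.1 h2
    _ = (2 * B + 1) ^ Fintype.card b := hfin
    _ ≤ (2 * B + 1) ^ finrank ℚ W := Nat.pow_le_pow_right (by omega) hcard

/-- An integral basis of a rational subspace. -/
theorem exists_int_basis {R : ℕ} (W : Submodule ℚ (Fin R → ℚ)) :
    ∃ z : Fin (finrank ℚ W) → Fin R → ℤ, (∀ i, (fun j => (z i j : ℚ)) ∈ W) ∧
      LinearIndependent ℤ z := by
  classical
  let w := Module.finBasis ℚ W
  let N : Fin (finrank ℚ W) → ℕ := fun i => ∏ j, ((w i : Fin R → ℚ) j).den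
  have hN : ∀ i, N i ≠ 0 := fun i => Finset.prod_ne_zero_iff.2 fun j _ => Rat.den_nz _
  have key : ∀ i j, ∃ z : ℤ, (z : ℚ) = (N i : ℚ) * (w i : Fin R → ℚ) j := by
    intro i j
    obtain ⟨d, hd⟩ : ((w i : Fin R → ℚ) j).den ∣ N i :=
      Finset.dvd_prod_of_mem (fun j => ((w i : Fin R → ℚ) j).den) (Finset.mem_univ j)
    refine ⟨((w i : Fin R → ℚ) j).num * d, ?_⟩
    rw [hd]
    push_cast
    have h1 := Rat.mul_den_eq_num ((w i : Fin R → ℚ) j)
    rw [← h1]
    ring
  choose z hz using key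
  have hzw : ∀ i, (fun j => (z i j : ℚ)) = (N i : ℚ) • (w i : Fin R → ℚ) := by
    intro i
    funext j
    rw [hz i j]
    rfl
  refine ⟨z, fun i => ?_, ?_⟩
  · rw [hzw i]
    exact W.smul_mem _ (w i).2
  · rw [Fintype.linearIndependent_iff]
    intro c hc
    have h1 : ∑ i, ((c i : ℚ) * (N i : ℚ)) • w i = 0 := by
      apply Subtype.ext
      rw [Submodule.coe_sum]
      funext j
      have h2 := congrFun hc j
      rw [Finset.sum_apply] at h2 ⊢
      have h3 : ∀ i, ((((c i : ℚ) * (N i : ℚ)) • w i : W) : Fin R → ℚ) j =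
          ((c i * z i j : ℤ) : ℚ) := by
        intro i
        rw [Int.cast_mul, hz i j]
        show ((c i : ℚ) * (N i : ℚ)) * (w i : Fin R → ℚ) j = _
        ring
      rw [Finset.sum_congr rfl fun i _ => h3 i, ← Int.cast_sum]
      have h4 : ∑ i, c i * z i j = 0 := h2
      rw [h4]
      simp
    intro i
    have h2 := Fintype.linearIndependent_iff.1 w.linearIndependent _ h1 i
    have h3 : (N i : ℚ) ≠ 0 := by exact_mod_cast hN i
    have h4 := (mul_eq_zero.1 h2).resolve_right h3
    exact_mod_cast h4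

section Count

variable {Ω T : Type*} [Field Ω] [AddCommGroup T] [Module Ω T] [Module ℚ T]

/-- The rational combinations of `y` in a subspace. -/
def Wsp {R : ℕ} (y : Fin R → T) (S : Submodule Ω T) [Algebra ℚ Ω] [IsScalarTower ℚ Ω T] :
    Submodule ℚ (Fin R → ℚ) :=
  (S.restrictScalars ℚ).comap (Fintype.linearCombination ℚ y)

variable [Algebra ℚ Ω] [IsScalarTower ℚ Ω T]

theorem mem_Wsp {R : ℕ} {y : Fin R → T} {S : Submodule Ω T} {w : Fin R → ℚ} :
    w ∈ Wsp y S ↔ ∑ j, w j • y j ∈ S := by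
  unfold Wsp
  rw [Submodule.mem_comap, Fintype.linearCombination_apply]
  rfl

/-- The number of the tuples with dependent images. -/
theorem bad_ncard {R : ℕ} (y : Fin R → T) (u B : ℕ)
    (hW : ∀ S : Submodule Ω T, FiniteDimensional Ω S → finrank ℚ (Wsp y S) ≤ finrank Ω S * u) :
    ∀ m : ℕ, {x : Fin m → Fin R → ℤ | (∀ i j, |x i j| ≤ (B : ℤ)) ∧
      ¬ LinearIndependent Ω (fun i => ∑ j, x i j • y j)}.ncard ≤
        m * (2 * B + 1) ^ ((m - 1) * (R + u)) := by
  classical
  intro m
  let q := 2 * B + 1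
  have hbox : ∀ k : ℕ, {x : Fin k → Fin R → ℤ | ∀ i j, |x i j| ≤ (B : ℤ)}.Finite ∧
      {x : Fin k → Fin R → ℤ | ∀ i j, |x i j| ≤ (B : ℤ)}.ncard = q ^ (R * k) := by
    intro k
    have h1 : {x : Fin k → Fin R → ℤ | ∀ i j, |x i j| ≤ (B : ℤ)} =
        ((Fintype.piFinset fun _ : Fin k => Fintype.piFinset fun _ : Fin R =>
          Finset.Icc (-(B : ℤ)) B : Finset (Fin k → Fin R → ℤ)) : Set (Fin k → Fin R → ℤ)) := by
      ext x
      rw [Set.mem_setOf_eq, Finset.mem_coe, Fintype.mem_piFinset]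
      refine forall_congr' fun i => ?_
      rw [Fintype.mem_piFinset]
      refine forall_congr' fun j => ?_
      rw [Finset.mem_Icc, ← abs_le]
    rw [h1]
    refine ⟨Finset.finite_toSet _, ?_⟩
    rw [Set.ncard_coe_finset, Fintype.card_piFinset, Finset.prod_const, Fintype.card_piFinset,
      Finset.prod_const, Int.card_Icc, Finset.card_univ, Finset.card_univ, Fintype.card_fin,
      Fintype.card_fin, ← pow_mul]
    congr 1
    show ((B : ℤ) + 1 - -(B : ℤ)).toNat = 2 * B + 1
    omega
  induction m with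
  | zero =>
    have h1 : {x : Fin 0 → Fin R → ℤ | (∀ i j, |x i j| ≤ (B : ℤ)) ∧
      ¬ LinearIndependent Ω (fun i => ∑ j, x i j • y j)} = ∅ := by
      ext x
      simp only [Set.mem_setOf_eq, Set.mem_empty_iff_false, iff_false, not_and, not_not]
      intro _
      exact linearIndependent_empty_type
    rw [h1, Set.ncard_empty]
    exact Nat.zero_le _
  | succ k ih =>
    -- the two parts
    let Bk : Set (Fin k → Fin R → ℤ) := {x | (∀ i j, |x i j| ≤ (B : ℤ)) ∧
      ¬ LinearIndependent Ω (fun i => ∑ j, x i j • y j)}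
    let Ck : Set (Fin k → Fin R → ℤ) := {x | ∀ i j, |x i j| ≤ (B : ℤ)}
    let C1 : Set (Fin R → ℤ) := {z | ∀ j, |z j| ≤ (B : ℤ)}
    let D : (Fin k → Fin R → ℤ) → Set (Fin R → ℤ) := fun x =>
      {z | (∀ j, |z j| ≤ (B : ℤ)) ∧ (fun j => (z j : ℚ)) ∈
        Wsp y (Submodule.span Ω (Set.range fun i => ∑ j, x i j • y j))}
    have hC1 : C1.Finite ∧ C1.ncard = q ^ R := by
      have h1 : C1 = ((Fintype.piFinset fun _ : Fin R =>
          Finset.Icc (-(B : ℤ)) B : Finset (Fin R → ℤ)) : Set (Fin R → ℤ)) := by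
        ext x
        show (∀ j, |x j| ≤ (B : ℤ)) ↔ _
        rw [Finset.mem_coe, Fintype.mem_piFinset]
        refine forall_congr' fun j => ?_
        rw [Finset.mem_Icc, ← abs_le]
      rw [h1]
      refine ⟨Finset.finite_toSet _, ?_⟩
      rw [Set.ncard_coe_finset, Fintype.card_piFinset, Finset.prod_const, Int.card_Icc,
        Finset.card_univ, Fintype.card_fin]
      congr 1
      show ((B : ℤ) + 1 - -(B : ℤ)).toNat = 2 * B + 1
      omega
    have hCk := hbox k
    have hBk : Bk.Finite := hCk.1.subset fun x hx => hx.1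
    have hD : ∀ x, (D x).Finite ∧ (D x).ncard ≤ q ^ (k * u) := by
      intro x
      refine ⟨hC1.1.subset fun z hz => hz.1, (box_ncard B _).trans ?_⟩
      refine Nat.pow_le_pow_right (by omega) ?_
      refine (hW _ (FiniteDimensional.span_of_finite Ω (Set.finite_range _))).trans ?_
      refine Nat.mul_le_mul_right u ?_
      have := finrank_range_le_card (R := Ω) (fun i : Fin k => ∑ j, x i j • y j)
      rwa [Fintype.card_fin] at this
    let e : (Fin R → ℤ) × (Fin k → Fin R → ℤ) → (Fin (k + 1) → Fin R → ℤ) := fun a =>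
      Fin.cons a.1 a.2
    have hsub : {x : Fin (k + 1) → Fin R → ℤ | (∀ i j, |x i j| ≤ (B : ℤ)) ∧
        ¬ LinearIndependent Ω (fun i => ∑ j, x i j • y j)} ⊆
        e '' (C1 ×ˢ Bk) ∪ ⋃ x ∈ hCk.1.toFinset, e '' (D x ×ˢ {x}) := by
      rintro x ⟨hx, hx2⟩
      have hxe : e (x 0, fun i => x i.succ) = x := Fin.cons_self_tail x
      have hx3 : (fun i => ∑ j, x i j • y j) =
          (Fin.cons (∑ j, x 0 j • y j) (fun i : Fin k => ∑ j, x i.succ j • y j) :
            Fin (k + 1) → T) := by
        funext i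
        refine Fin.cases ?_ (fun i => ?_) i
        · rw [Fin.cons_zero]
        · rw [Fin.cons_succ]
      rw [hx3, linearIndependent_fin_cons, not_and_or, not_not] at hx2
      rcases hx2 with h1 | h1
      · left
        refine ⟨(x 0, fun i => x i.succ), ⟨fun j => hx 0 j, fun i j => hx i.succ j, h1⟩, hxe⟩
      · right
        rw [Set.mem_iUnion₂]
        refine ⟨fun i => x i.succ, ?_, (x 0, fun i => x i.succ), ⟨⟨fun j => hx 0 j, ?_⟩, rfl⟩, hxe⟩
        · rw [Set.Finite.mem_toFinset]
          exact fun i j => hx i.succ j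
        · rw [mem_Wsp]
          convert h1 using 2 with j
          rw [Int.cast_smul_eq_zsmul]
    have hfin2 : ∀ x, (e '' (D x ×ˢ {x})).Finite ∧ (e '' (D x ×ˢ {x})).ncard ≤ q ^ (k * u) := by
      intro x
      have h1 : (D x ×ˢ ({x} : Set (Fin k → Fin R → ℤ))).Finite :=
        (hD x).1.prod (Set.finite_singleton x)
      refine ⟨h1.image e, (Set.ncard_image_le h1).trans ?_⟩
      rw [Set.ncard_prod, Set.ncard_singleton, mul_one]
      exact (hD x).2
    have hfinU : (⋃ x ∈ hCk.1.toFinset, e '' (D x ×ˢ {x})).Finite :=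
      Set.Finite.biUnion (Finset.finite_toSet _) fun x _ => (hfin2 x).1
    have hfin1 : (e '' (C1 ×ˢ Bk)).Finite := (hC1.1.prod hBk).image e
    have hU : (⋃ x ∈ hCk.1.toFinset, e '' (D x ×ˢ {x})).ncard ≤ q ^ (R * k) * q ^ (k * u) := by
      refine (Finset.set_ncard_biUnion_le _ _).trans ?_
      refine (Finset.sum_le_card_nsmul _ _ (q ^ (k * u)) fun x _ => (hfin2 x).2).trans ?_
      rw [smul_eq_mul, ← Set.ncard_eq_toFinset_card _ hCk.1, hCk.2]
    have hA : (e '' (C1 ×ˢ Bk)).ncard ≤ q ^ R * (k * q ^ ((k - 1) * (R + u))) := by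
      refine (Set.ncard_image_le (hC1.1.prod hBk)).trans ?_
      rw [Set.ncard_prod, hC1.2]
      exact Nat.mul_le_mul_left _ ih
    refine (Set.ncard_le_ncard hsub (hfin1.union hfinU)).trans ?_
    refine (Set.ncard_union_le _ _).trans ?_
    refine (Nat.add_le_add hA hU).trans ?_
    have hq : 1 ≤ q := by omega
    have h2 : q ^ R * (k * q ^ ((k - 1) * (R + u))) ≤ k * q ^ (k * (R + u)) := by
      rcases Nat.eq_zero_or_pos k with h0 | h0
      · subst h0
        simp
      · obtain ⟨l, rfl⟩ : ∃ l, k = l + 1 := ⟨k - 1, by omega⟩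
        rw [Nat.add_sub_cancel]
        calc q ^ R * ((l + 1) * q ^ (l * (R + u))) = (l + 1) * q ^ (R + l * (R + u)) := by
              rw [pow_add]; ring
          _ ≤ (l + 1) * q ^ ((l + 1) * (R + u)) := by
              refine Nat.mul_le_mul_left _ (Nat.pow_le_pow_right hq ?_)
              have : (l + 1) * (R + u) = l * (R + u) + R + u := by ring
              omega
    have h3 : q ^ (R * k) * q ^ (k * u) = q ^ (k * (R + u)) := by
      rw [← pow_add]
      congr 1
      ring
    rw [h3]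
    show _ ≤ (k + 1) * q ^ ((k + 1 - 1) * (R + u))
    rw [Nat.add_sub_cancel, add_mul, one_mul]
    exact Nat.add_le_add_right h2 _

end Count

end Pool.Agent.W_52423f_h53
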