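import Pool.Agent.W_52423f_h69.Fin
import Pool.Agent.W_52423f_h53.Cnt

/-! Almost all subgroups of rank `m` have closures of rank `m`. -/

set_option autoImplicit false
set_option linter.unusedSectionVars false

namespace Pool.Agent.W_52423f_h53

open Module TensorProduct Pool.Agent.W_52423f_h69

section

variable (p : ℕ) [Fact p.Prime] (K : Type*) [Field K] [NumberField K] (V : Type*)
    [AddCommGroup V] [Module K V] (T : Type*) [AddCommGroup T] [Module ℚ_[p] T] [Module ℤ_[p] T]
    [IsScalarTower ℤ_[p] ℚ_[p] T] [Module K T] [SMulCommClass ℚ_[p] K T] [TopologicalSpace T]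
    [IsTopologicalAddGroup T] [ContinuousSMul ℚ_[p] T] [T2Space T] (log : V →ₗ[K] T)
    (Γ : AddSubgroup V)
    (h : (IsField (ℚ_[p] ⊗[ℚ] K) ∧ ∀ x ∈ Γ, log x = 0 → x = 0) ∨
      ∀ (n : ℕ) (v : Fin n → V), (∀ i, v i ∈ Γ) → LinearIndependent ℤ v →
        ∀ a : Fin n → AlgebraicClosure ℚ_[p], (∀ i, IsAlgebraic ℚ (a i)) →
          ∑ i, a i ⊗ₜ[ℚ_[p]] log (v i) = 0 → a = 0)

include h

/-- The inequality for a family of independent elements. -/
theorem main_v {k : ℕ} (v : Fin k → V) (hvL : ∀ i, v i ∈ Γ) (hv : LinearIndependent ℤ v) :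
    k ≤ finrank ℚ_[p] (Submodule.span ℚ_[p] (Set.range fun i => log (v i))) *
      finrank K (Submodule.span K (Set.range fun i => log (v i))) := by
  classical
  let _ : Module ℚ V := Module.compHom V (algebraMap ℚ K)
  let _ : Module ℚ T := Module.compHom T (algebraMap ℚ ℚ_[p])
  have : IsScalarTower ℚ ℚ_[p] T := ⟨fun a b y => by
    rw [Algebra.smul_def, mul_smul]
    rfl⟩
  have : IsScalarTower ℚ K T := IsScalarTower.rat
  rcases h with ⟨hF, hinj⟩ | h
  · refine ineq_field (k := ℚ) hF _ ?_
    rw [← LinearIndependent.iff_fractionRing ℤ ℚ, Fintype.linearIndependent_iff]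
    intro c hc
    have h1 : log (∑ i, c i • v i) = 0 := by
      rw [map_sum, ← hc]
      refine Finset.sum_congr rfl fun i _ => ?_
      rw [map_zsmul]
    have h2 : ∑ i, c i • v i = 0 := hinj _ (sum_mem fun i _ => zsmul_mem (hvL i) _) h1
    exact Fintype.linearIndependent_iff.1 hv c h2
  · refine ineq_indep (k := ℚ) _ fun a ha hφ => ?_
    exact h k v hvL hv a ha (tensor_zero a _ hφ)

/-- The rational combinations of logarithms in a subspace. -/
theorem wsp_le {R : ℕ} (g : Fin R → V) (hg : ∀ i, g i ∈ Γ) (hgi : LinearIndependent ℤ g)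
    [Module ℚ T] [IsScalarTower ℚ ℚ_[p] T] (S : Submodule ℚ_[p] T) [FiniteDimensional ℚ_[p] S] :
    finrank ℚ (Wsp (fun j => log (g j)) S) ≤
      finrank ℚ_[p] S * finrank K (Submodule.span K (Set.range g)) := by
  classical
  obtain ⟨z, hz, hzi⟩ := exists_int_basis (Wsp (fun j => log (g j)) S)
  let v : Fin (finrank ℚ (Wsp (fun j => log (g j)) S)) → V := fun i => ∑ j, z i j • g j
  have hv1 : ∀ i, v i ∈ Γ := fun i => sum_mem fun j _ => zsmul_mem (hg j) _
  have hv2 : LinearIndependent ℤ v := by
    rw [Fintype.linearIndependent_iff]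
    intro c hc
    have h1 : ∑ j, (∑ i, c i * z i j) • g j = 0 := by
      rw [← hc]
      simp only [v, Finset.sum_smul, Finset.smul_sum, mul_smul]
      exact Finset.sum_comm
    have h2 := Fintype.linearIndependent_iff.1 hgi _ h1
    refine Fintype.linearIndependent_iff.1 hzi c ?_
    funext j
    rw [Finset.sum_apply]
    exact h2 j
  have hv3 : ∀ i, log (v i) ∈ S := by
    intro i
    have h1 := mem_Wsp.1 (hz i)
    rw [map_sum]
    convert h1 using 2 with j
    rw [map_zsmul, Int.cast_smul_eq_zsmul]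
  refine (main_v p K V T log Γ h v hv1 hv2).trans (Nat.mul_le_mul ?_ ?_)
  · refine Submodule.finrank_mono ?_
    rw [Submodule.span_le]
    rintro _ ⟨i, rfl⟩
    exact hv3 i
  · have h1 : Submodule.span K (Set.range fun i => log (v i)) ≤
        (Submodule.span K (Set.range g)).map log := by
      rw [Submodule.span_le]
      rintro _ ⟨i, rfl⟩
      refine ⟨v i, ?_, rfl⟩
      refine Submodule.sum_mem _ fun j _ => ?_
      have h2 : (z i j) • g j = ((z i j : K)) • g j := by rw [Int.cast_smul_eq_zsmul]
      rw [h2]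
      exact Submodule.smul_mem _ _ (Submodule.subset_span ⟨j, rfl⟩)
    have hf : FiniteDimensional K (Submodule.span K (Set.range g)) :=
      FiniteDimensional.span_of_finite K (Set.finite_range g)
    exact (Submodule.finrank_mono h1).trans (Submodule.finrank_map_le log _)

/-- Almost all tuples. -/
theorem almost_all {R : ℕ} (g : Fin R → V) (hg : ∀ i, g i ∈ Γ) (hgi : LinearIndependent ℤ g)
    (m B : ℕ) :
    {x : Fin m → Fin R → ℤ | (∀ i j, |x i j| ≤ (B : ℤ)) ∧
      ¬ ∃ H : Submodule ℤ_[p] T, (H : Set T) = closure (log '' (AddSubgroup.closure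
        (Set.range fun i => ∑ j, x i j • g j) : Set V)) ∧ Module.Finite ℤ_[p] H ∧
          Module.Free ℤ_[p] H ∧ finrank ℤ_[p] H = m}.ncard ≤
      m * (2 * B + 1) ^ ((m - 1) * (R + finrank K (Submodule.span K (Set.range g)))) := by
  classical
  let _ : Module ℚ T := Module.compHom T (algebraMap ℚ ℚ_[p])
  have : IsScalarTower ℚ ℚ_[p] T := ⟨fun a b y => by
    rw [Algebra.smul_def, mul_smul]
    rfl⟩
  have h1 := bad_ncard (Ω := ℚ_[p]) (fun j => log (g j))
    (finrank K (Submodule.span K (Set.range g))) B (fun S hS => wsp_le p K V T log Γ h g hg hgi S) m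
  refine le_trans (Set.ncard_le_ncard ?_ ?_) h1
  · rintro x ⟨hx, hx2⟩
    refine ⟨hx, fun hli => hx2 ?_⟩
    let P : Fin m → V := fun i => ∑ j, x i j • g j
    have hP : ∀ i, log (P i) = ∑ j, x i j • log (g j) := by
      intro i
      rw [map_sum]
      exact Finset.sum_congr rfl fun j _ => map_zsmul _ _ _
    obtain ⟨hfin, hfree, hrk⟩ := finrank_zp (p := p) (fun i => log (P i))
    refine ⟨Submodule.span ℤ_[p] (Set.range fun i => log (P i)), ?_, hfin, hfree, ?_⟩
    · rw [closure_zspan]
      congr 1
      have h2 : (AddSubgroup.closure (Set.range P) : Set V) = Submodule.span ℤ (Set.range P) := by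
        rw [← Submodule.span_int_eq_addSubgroupClosure]
        rfl
      show _ = log '' (AddSubgroup.closure (Set.range P) : Set V)
      rw [h2]
      have h3 : (Submodule.span ℤ (Set.range P)).map (log.restrictScalars ℤ) =
          Submodule.span ℤ (Set.range fun i => log (P i)) := by
        rw [Submodule.map_span]
        congr 1
        ext y
        simp
      rw [← h3]
      rfl
    · rw [hrk]
      have h4 : LinearIndependent ℚ_[p] (fun i => log (P i)) := by
        have h5 : (fun i => log (P i)) = fun i => ∑ j, x i j • log (g j) := funext hP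
        rw [h5]
        exact hli
      rw [finrank_span_eq_card h4, Fintype.card_fin]
  · have h2 : {x : Fin m → Fin R → ℤ | ∀ i j, |x i j| ≤ (B : ℤ)} =
        ((Fintype.piFinset fun _ : Fin m => Fintype.piFinset fun _ : Fin R =>
          Finset.Icc (-(B : ℤ)) B : Finset (Fin m → Fin R → ℤ)) : Set (Fin m → Fin R → ℤ)) := by
      ext x
      show (∀ i j, |x i j| ≤ (B : ℤ)) ↔ _
      rw [Finset.mem_coe, Fintype.mem_piFinset]
      refine forall_congr' fun i => ?_
      rw [Fintype.mem_piFinset]
      refine forall_congr' fun j => ?_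
      rw [Finset.mem_Icc, ← abs_le]
    refine Set.Finite.subset (s := {x : Fin m → Fin R → ℤ | ∀ i j, |x i j| ≤ (B : ℤ)}) ?_
      fun x hx => hx.1
    rw [h2]
    exact Finset.finite_toSet _

end

end Pool.Agent.W_52423f_h53
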